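import Mathlib

namespace Pool.Agent.Results.MP_adc54a_gt.Sigma

open Set

/-- An interior-preserving family of open sets: every intersection of members is open. -/
def IP {X : Type*} [TopologicalSpace X] (𝒱 : Set (Set X)) : Prop :=
  (∀ v ∈ 𝒱, IsOpen v) ∧ ∀ 𝒲 ⊆ 𝒱, IsOpen (⋂₀ 𝒲)

/-- Every open cover has an interior-preserving open refinement. -/
def Orthocompact (X : Type*) [TopologicalSpace X] : Prop :=
  ∀ 𝒰 : Set (Set X), (∀ u ∈ 𝒰, IsOpen u) → ⋃₀ 𝒰 = univ →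
    ∃ 𝒱 : Set (Set X), IP 𝒱 ∧ ⋃₀ 𝒱 = univ ∧ ∀ v ∈ 𝒱, ∃ u ∈ 𝒰, v ⊆ u

/-- Every open cover has an open refinement that is a countable union of interior-preserving
families. -/
def SigmaOrthocompact (X : Type*) [TopologicalSpace X] : Prop :=
  ∀ 𝒰 : Set (Set X), (∀ u ∈ 𝒰, IsOpen u) → ⋃₀ 𝒰 = univ →
    ∃ 𝒱 : ℕ → Set (Set X), (∀ n, IP (𝒱 n)) ∧ ⋃₀ (⋃ n, 𝒱 n) = univ ∧
      ∀ n, ∀ v ∈ 𝒱 n, ∃ u ∈ 𝒰, v ⊆ u

/-- Every countable open cover has a point-finite open refinement (indexed form). -/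
def CountablyMetacompact (X : Type*) [TopologicalSpace X] : Prop :=
  ∀ G : ℕ → Set X, (∀ n, IsOpen (G n)) → ⋃ n, G n = univ →
    ∃ H : ℕ → Set X, (∀ n, IsOpen (H n)) ∧ ⋃ n, H n = univ ∧ (∀ n, H n ⊆ G n) ∧
      ∀ x, {n | x ∈ H n}.Finite

variable {X Y : Type*} [TopologicalSpace X] [TopologicalSpace Y]

/-- Pointwise form of interior preservation for an indexed family. -/
def PW {ι : Type*} (V : ι → Set X) : Prop :=
  ∀ x, ∃ N, IsOpen N ∧ x ∈ N ∧ ∀ i, x ∈ V i → N ⊆ V i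

theorem IP.pw {𝒱 : Set (Set X)} (h : IP 𝒱) (x : X) :
    ∃ N, IsOpen N ∧ x ∈ N ∧ ∀ v ∈ 𝒱, x ∈ v → N ⊆ v :=
  ⟨⋂₀ {v ∈ 𝒱 | x ∈ v}, h.2 _ fun _ hv => hv.1, fun _ hv => hv.2,
    fun _ hv hx => sInter_subset_of_mem ⟨hv, hx⟩⟩

theorem PW.ip {ι : Type*} {V : ι → Set X} (h : PW V) : IP (range V) := by
  have key : ∀ 𝒲 ⊆ range V, IsOpen (⋂₀ 𝒲) := by
    intro 𝒲 h𝒲
    rw [isOpen_iff_forall_mem_open]
    intro x hx
    obtain ⟨N, h1, h2, h3⟩ := h x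
    refine ⟨N, fun y hy w hw => ?_, h1, h2⟩
    obtain ⟨i, rfl⟩ := h𝒲 hw
    exact h3 i (hx _ hw) hy
  exact ⟨fun v hv => by simpa using key {v} (singleton_subset_iff.2 hv), key⟩

theorem PW.kern {ι : Type*} {f : X → Y} (hc : IsClosedMap f) (hfin : ∀ y, (f ⁻¹' {y}).Finite)
    {V : ι → Set X} (h : PW V) : PW fun i => kernImage f (V i) := by
  intro y
  choose N h1 h2 h3 using h
  have hV : ∀ i, IsOpen (V i) := fun i => (PW.ip fun x => ⟨N x, h1 x, h2 x, h3 x⟩).1 _ ⟨i, rfl⟩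
  let T : Set X := ⋂₀ {v ∈ range V | f ⁻¹' {y} ⊆ v}
  have hT : IsOpen T := (PW.ip fun x => ⟨N x, h1 x, h2 x, h3 x⟩).2 _ fun _ hv => hv.1
  refine ⟨kernImage f T, isClosedMap_iff_kernImage.1 hc hT, ?_, ?_⟩
  · intro x hx v hv
    exact hv.2 hx
  · intro i hi
    exact kernImage_mono (sInter_subset_of_mem ⟨⟨i, rfl⟩, fun x hx => hi hx⟩)

theorem stage {f : X → Y} (hf : Continuous f) (hc : IsClosedMap f)
    (hfin : ∀ y, (f ⁻¹' {y}).Finite) (hX : Orthocompact X) (𝒰 : Set (Set Y))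
    (ho : ∀ u ∈ 𝒰, IsOpen u) (hcov : ⋃₀ 𝒰 = univ) (j : ℕ) :
    ∃ V : 𝒰 → Set X, PW V ∧ (∀ u, V u ⊆ f ⁻¹' (u : Set Y)) ∧
      ∀ y, ∀ S : Finset X, (↑S : Set X) ⊆ f ⁻¹' {y} → S.card ≤ j →
        ∃ u : 𝒰, y ∈ (u : Set Y) ∧ ↑S ⊆ V u := by
  classical
  induction j with
  | zero =>
    refine ⟨fun _ => ∅, fun x => ⟨univ, isOpen_univ, trivial, fun _ h => h.elim⟩,
      fun _ => empty_subset _, fun y S _ hS => ?_⟩
    obtain ⟨u, hu, hy⟩ := mem_sUnion.1 (hcov ▸ mem_univ y)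
    refine ⟨⟨u, hu⟩, hy, ?_⟩
    rw [Finset.card_eq_zero.1 (Nat.le_zero.1 hS)]
    simp
  | succ j ih =>
    obtain ⟨V, hV, hVU, hS⟩ := ih
    choose N hN1 hN2 hN3 using hV
    have hS' : ∀ y (S : Finset X), ∃ u : 𝒰, ((↑S : Set X) ⊆ f ⁻¹' {y} → S.card ≤ j →
        y ∈ (u : Set Y) ∧ ↑S ⊆ V u) := by
      intro y S
      by_cases h : (↑S : Set X) ⊆ f ⁻¹' {y} ∧ S.card ≤ j
      · obtain ⟨u, hu⟩ := hS y S h.1 h.2
        exact ⟨u, fun _ _ => hu⟩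
      · obtain ⟨u, -⟩ := hS y ∅ (by simp) (by simp)
        exact ⟨u, fun h1 h2 => (h ⟨h1, h2⟩).elim⟩
    choose lab hlab using hS'
    have hlab1 := fun y S h1 h2 => (hlab y S h1 h2).1
    have hlab2 := fun y S h1 h2 => (hlab y S h1 h2).2
    let L : Y → Set 𝒰 := fun y =>
      lab y '' {S : Finset X | (↑S : Set X) ⊆ f ⁻¹' {y} ∧ S.card ≤ j}
    have hL : ∀ y, (L y).Finite := by
      intro y
      refine Finite.image _ ((hfin y).toFinset.powerset.finite_toSet.subset ?_)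
      intro S hS
      simpa using hS.1
    let O : Y → Set Y := fun y =>
      kernImage f (⋃ x ∈ f ⁻¹' {y}, N x) ∩ ⋂ u ∈ L y, (u : Set Y)
    have hO : ∀ y, IsOpen (O y) := fun y =>
      (isClosedMap_iff_kernImage.1 hc (isOpen_biUnion fun x _ => hN1 x)).inter
        ((hL y).isOpen_biInter fun u _ => ho _ u.2)
    have hyO : ∀ y, y ∈ O y := by
      intro y
      refine ⟨fun x hx => mem_biUnion hx (hN2 x), mem_iInter₂.2 ?_⟩
      rintro _ ⟨S, hS, rfl⟩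
      exact hlab1 y S hS.1 hS.2
    obtain ⟨𝒢, h𝒢, hGcov, hGref⟩ := hX (range fun y => f ⁻¹' O y)
      (by rintro _ ⟨y, rfl⟩; exact (hO y).preimage hf)
      (eq_univ_of_forall fun x => ⟨_, ⟨f x, rfl⟩, hyO (f x)⟩)
    have hc' : ∀ G ∈ 𝒢, ∃ y, G ⊆ f ⁻¹' O y := by
      intro G hG
      obtain ⟨_, ⟨y, rfl⟩, h⟩ := hGref G hG
      exact ⟨y, h⟩
    choose c hcG using hc'
    refine ⟨fun u => V u ∪ {x | ∃ G, ∃ hG : G ∈ 𝒢, u ∈ L (c G hG) ∧ x ∈ G}, ?_, ?_, ?_⟩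
    · intro x
      obtain ⟨M, hM1, hM2, hM3⟩ := h𝒢.pw x
      refine ⟨N x ∩ M, (hN1 x).inter hM1, ⟨hN2 x, hM2⟩, ?_⟩
      rintro u (hu | ⟨G, hG, h1, h2⟩) z hz
      · exact Or.inl (hN3 x u hu hz.1)
      · exact Or.inr ⟨G, hG, h1, hM3 G hG h2 hz.2⟩
    · rintro u x (hu | ⟨G, hG, h1, h2⟩)
      · exact hVU u hu
      · exact mem_iInter₂.1 (hcG G hG h2).2 u h1
    · intro y S hSy hSc
      rcases S.eq_empty_or_nonempty with rfl | ⟨x0, hx0⟩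
      · exact ⟨lab y ∅, hlab1 y ∅ (by simp) (by simp), by simp⟩
      obtain ⟨G, hG, hxG⟩ := mem_sUnion.1 (hGcov ▸ mem_univ x0)
      have hy : f x0 = y := hSy hx0
      have hyO' : y ∈ O (c G hG) := hy ▸ hcG G hG hxG
      have hp : ∀ x ∈ S, ∃ z, f z = c G hG ∧ x ∈ N z := by
        intro x hx
        obtain ⟨z, hz1, hz2⟩ := mem_iUnion₂.1 (hyO'.1 (hSy hx))
        exact ⟨z, hz1, hz2⟩
      choose! p hp1 hp2 using hp
      have hT1 : (↑((S.erase x0).image p) : Set X) ⊆ f ⁻¹' {c G hG} := by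
        intro z hz
        obtain ⟨x, hx, rfl⟩ := Finset.mem_image.1 (Finset.mem_coe.1 hz)
        exact hp1 x (Finset.mem_of_mem_erase hx)
      have hT2 : ((S.erase x0).image p).card ≤ j := by
        refine Finset.card_image_le.trans ?_
        rw [Finset.card_erase_of_mem hx0]
        omega
      have hmem : lab (c G hG) ((S.erase x0).image p) ∈ L (c G hG) := ⟨_, ⟨hT1, hT2⟩, rfl⟩
      refine ⟨lab (c G hG) ((S.erase x0).image p), mem_iInter₂.1 hyO'.2 _ hmem, fun x hx => ?_⟩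
      by_cases hxx : x = x0
      · exact Or.inr ⟨G, hG, hmem, hxx ▸ hxG⟩
      · refine Or.inl (hN3 (p x) _ (hlab2 _ _ hT1 hT2 ?_) (hp2 x hx))
        exact Finset.mem_coe.2 (Finset.mem_image_of_mem p (Finset.mem_erase.2 ⟨hxx, hx⟩))

theorem stageY {f : X → Y} (hf : Continuous f) (hc : IsClosedMap f) (hs : Function.Surjective f)
    (hfin : ∀ y, (f ⁻¹' {y}).Finite) (hX : Orthocompact X) (𝒰 : Set (Set Y))
    (ho : ∀ u ∈ 𝒰, IsOpen u) (hcov : ⋃₀ 𝒰 = univ) (j : ℕ) :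
    ∃ W : 𝒰 → Set Y, PW W ∧ (∀ u, W u ⊆ (u : Set Y)) ∧
      ∀ y, (f ⁻¹' {y}).ncard ≤ j → ∃ u, y ∈ W u := by
  obtain ⟨V, h1, h2, h3⟩ := stage hf hc hfin hX 𝒰 ho hcov j
  refine ⟨fun u => kernImage f (V u), h1.kern hc hfin, fun u y hy => ?_, fun y hy => ?_⟩
  · obtain ⟨x, rfl⟩ := hs y
    exact h2 u (hy rfl)
  · obtain ⟨u, -, hu⟩ := h3 y (hfin y).toFinset (by simp)
      (by rwa [← ncard_eq_toFinset_card _ (hfin y)])
    exact ⟨u, fun x hx => hu (by simpa using hx)⟩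

theorem result (X Y : Type*) [TopologicalSpace X] [TopologicalSpace Y] (f : X → Y)
    (hf : Continuous f) (hc : IsClosedMap f) (hs : Function.Surjective f)
    (hfin : ∀ y, (f ⁻¹' {y}).Finite) (hX : Orthocompact X) :
    SigmaOrthocompact Y ∧
    ((∃ n : ℕ, ∀ y, (f ⁻¹' {y}).ncard ≤ n) → Orthocompact Y) ∧
    (CountablyMetacompact X ∨ CountablyMetacompact Y → Orthocompact Y) := by
  refine ⟨fun 𝒰 ho hcov => ?_, fun ⟨n, hn⟩ 𝒰 ho hcov => ?_, fun hcm 𝒰 ho hcov => ?_⟩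
  · choose W h1 h2 h3 using stageY hf hc hs hfin hX 𝒰 ho hcov
    refine ⟨fun n => range (W n), fun n => (h1 n).ip, eq_univ_of_forall fun y => ?_, ?_⟩
    · obtain ⟨u, hu⟩ := h3 _ y le_rfl
      exact ⟨_, mem_iUnion.2 ⟨_, u, rfl⟩, hu⟩
    · rintro n _ ⟨u, rfl⟩
      exact ⟨u, u.2, h2 n u⟩
  · obtain ⟨W, h1, h2, h3⟩ := stageY hf hc hs hfin hX 𝒰 ho hcov n
    refine ⟨range W, h1.ip, eq_univ_of_forall fun y => ?_, ?_⟩
    · obtain ⟨u, hu⟩ := h3 y (hn y)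
      exact ⟨_, ⟨u, rfl⟩, hu⟩
    · rintro _ ⟨u, rfl⟩
      exact ⟨u, u.2, h2 u⟩
  · choose W h1 h2 h3 using stageY hf hc hs hfin hX 𝒰 ho hcov
    let W' : ℕ → Set Y := fun n => ⋃ m ∈ Iic n, ⋃ u, W m u
    have hWo : ∀ m u, IsOpen (W m u) := fun m u => (h1 m).ip.1 _ ⟨u, rfl⟩
    have hW'o : ∀ n, IsOpen (W' n) := fun n =>
      isOpen_biUnion fun m _ => isOpen_iUnion fun u => hWo m u
    have hW'c : ∀ y, ∃ n, y ∈ W' n := fun y => by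
      obtain ⟨u, hu⟩ := h3 _ y le_rfl
      exact ⟨_, mem_biUnion (mem_Iic.2 le_rfl) (mem_iUnion.2 ⟨u, hu⟩)⟩
    obtain ⟨H, hH1, hH2, hH3, hH4⟩ : ∃ H : ℕ → Set Y, (∀ n, IsOpen (H n)) ∧ (∀ y, ∃ n, y ∈ H n) ∧
        (∀ n, H n ⊆ W' n) ∧ ∀ y, {n | y ∈ H n}.Finite := by
      rcases hcm with hcm | hcm
      · obtain ⟨K, k1, k2, k3, k4⟩ := hcm (fun n => f ⁻¹' W' n) (fun n => (hW'o n).preimage hf)
          (eq_univ_of_forall fun x => mem_iUnion.2 (hW'c (f x)))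
        let C : ℕ → Set Y := fun n => f '' (⋃ m ∈ Ioi n, K m)ᶜ
        have hC : ∀ n, IsClosed (C n) := fun n =>
          hc _ (isOpen_biUnion fun m _ => k1 m).isClosed_compl
        have hCW : ∀ n, C n ⊆ W' n := by
          rintro n _ ⟨x, hx, rfl⟩
          obtain ⟨m, hm⟩ := mem_iUnion.1 (k2 ▸ mem_univ x)
          have hmn : m ≤ n := not_lt.1 fun h => hx (mem_biUnion (mem_Ioi.2 h) hm)
          obtain ⟨i, hi, hy⟩ := mem_iUnion₂.1 (k3 m hm)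
          exact mem_biUnion (mem_Iic.2 (le_trans hi hmn)) hy
        have hCc : ∀ y, ∃ n, y ∈ C n := by
          intro y
          obtain ⟨x, rfl⟩ := hs y
          obtain ⟨n, hn⟩ := (k4 x).bddAbove
          refine ⟨n, x, fun hx => ?_, rfl⟩
          obtain ⟨m, hm, hxm⟩ := mem_iUnion₂.1 hx
          exact absurd (hn hxm) (not_le.2 hm)
        refine ⟨fun n => W' n ∩ ⋂ m ∈ Iio n, (C m)ᶜ, fun n => (hW'o n).inter
          ((finite_Iio n).isOpen_biInter fun m _ => (hC m).isOpen_compl), fun y => ?_,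
          fun n => inter_subset_left, fun y => ?_⟩
        · classical
          refine ⟨Nat.find (hCc y), hCW _ (Nat.find_spec (hCc y)), mem_iInter₂.2 fun m hm => ?_⟩
          exact Nat.find_min (hCc y) hm
        · obtain ⟨n, hn⟩ := hCc y
          refine (finite_Iic n).subset fun m hm => mem_Iic.2 (not_lt.1 fun h => ?_)
          exact mem_iInter₂.1 hm.2 n h hn
      · obtain ⟨H, k1, k2, k3, k4⟩ := hcm W' hW'o (eq_univ_of_forall fun y => mem_iUnion.2 (hW'c y))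
        exact ⟨H, k1, fun y => mem_iUnion.1 (k2 ▸ mem_univ y), k3, k4⟩
    let Z : {t : ℕ × ℕ // t.2 ≤ t.1} × 𝒰 → Set Y := fun t => H t.1.1.1 ∩ W t.1.1.2 t.2
    have hZ : PW Z := by
      intro y
      choose N n1 n2 n3 using fun m => h1 m y
      obtain ⟨b, hb⟩ := (hH4 y).bddAbove
      refine ⟨(⋂ n ∈ {n | y ∈ H n}, H n) ∩ ⋂ m ∈ Iic b, N m,
        ((hH4 y).isOpen_biInter fun n _ => hH1 n).inter
          ((finite_Iic b).isOpen_biInter fun m _ => n1 m),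
        ⟨mem_iInter₂.2 fun n hn => hn, mem_iInter₂.2 fun m _ => n2 m⟩, ?_⟩
      rintro ⟨⟨⟨n, m⟩, hmn⟩, u⟩ ⟨hy1, hy2⟩ z hz
      exact ⟨mem_iInter₂.1 hz.1 n hy1,
        n3 m u hy2 (mem_iInter₂.1 hz.2 m (mem_Iic.2 (le_trans hmn (hb hy1))))⟩
    refine ⟨range Z, hZ.ip, eq_univ_of_forall fun y => ?_, ?_⟩
    · obtain ⟨n, hn⟩ := hH2 y
      obtain ⟨m, hm, hy⟩ := mem_iUnion₂.1 (hH3 n hn)
      obtain ⟨u, hu⟩ := mem_iUnion.1 hy
      exact ⟨_, ⟨(⟨(n, m), hm⟩, u), rfl⟩, hn, hu⟩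
    · rintro _ ⟨t, rfl⟩
      exact ⟨t.2, t.2.2, inter_subset_right.trans (h2 _ _)⟩

end Pool.Agent.Results.MP_adc54a_gt.Sigma
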